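import Mathlib
import Pool.Agent.Helper61.Odo.Coh
import Pool.Agent.Helper61.Odo.Lie

/-!
# MP_75613c_an, Q1: disproof

We disprove the assertion that for every compact connected Lie group `G` of positive dimension,
every ergodic automorphism `T` and every finite measurable partition, almost every pair of simple
cocycles is not measurably cohomologous.

The counterexample is `G = SU(2)` (unit quaternions), `T x = x + 1` on the 5-adic integers, and the
partition into two sets given by the first letter of the Toeplitz sequence generated by the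
substitution `A -> ABABB`, `B -> BAAAA`.  The induced (renormalised) map on the three traces
`2 Re A, 2 Re B, 2 Re AB` has, up to signs, an attracting fixed point, so an open set of pairs
`(A, B)` renormalises to the same pair up to conjugacy, exponentially fast; rigidity of
irreducible pairs then produces a convergent sequence of transfer functions.
-/

set_option autoImplicit false

open MeasureTheory Topology Filter Metric
open scoped Manifold ContDiff Quaternion

namespace Pool.Agent.Results.MP_75613c_an.OdometerSU2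

/-- `φ` and `ψ` (equivalently the `G`-extensions `T_φ` and `T_ψ`) are measurably cohomologous:
there is a measurable `f : X → G` with `ψ x = f (T x) * φ x * (f x)⁻¹` for almost every `x`. -/
def Cohomologous {X G : Type} [MeasurableSpace X] [Group G] [MeasurableSpace G] (μ : Measure X)
    (T : X → X) (φ ψ : X → G) : Prop :=
  ∃ f : X → G, Measurable f ∧ ∀ᵐ x ∂μ, ψ x = f (T x) * φ x * (f x)⁻¹

/-- The assertion of Q1: for every compact connected (Hausdorff) Lie group `G` of dimension
`d ≥ 1` with normalised Haar measure `m` on its Borel sets, every standard Borel probability space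
`(X, μ)`, every ergodic automorphism `T` and every partition of `X` into `n` measurable sets
`c ⁻¹' {i}` of positive measure, almost every pair `p` of points of `G ^ n`, for the
product Haar measure, gives simple functions `x ↦ p.1 (c x)` and `x ↦ p.2 (c x)` that are
not measurably cohomologous. -/
def Q1 : Prop :=
  ∀ (d : ℕ), 1 ≤ d →
  ∀ (G : Type) [TopologicalSpace G] [T2Space G] [CompactSpace G] [ConnectedSpace G] [Group G]
    [ChartedSpace (EuclideanSpace ℝ (Fin d)) G] [LieGroup (𝓡 d) ∞ G]
    [MeasurableSpace G] [BorelSpace G]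
    (m : Measure G) [m.IsHaarMeasure] [IsProbabilityMeasure m]
    (X : Type) [MeasurableSpace X] [StandardBorelSpace X] (μ : Measure X)
    [IsProbabilityMeasure μ] (T : X ≃ᵐ X), Ergodic T μ →
  ∀ (n : ℕ) (c : X → Fin n), Measurable c → (∀ i, 0 < μ (c ⁻¹' {i})) →
    ∀ᵐ p ∂((Measure.pi fun _ : Fin n => m).prod (Measure.pi fun _ : Fin n => m)),
      ¬ Cohomologous μ T (fun x => p.1 (c x)) (fun x => p.2 (c x))

open Pool.Agent.Helper61.Odo

/-- the partition of the 5-adic integers -/
noncomputable def part (x : ℤ_[5]) : Fin 2 := if lt x = true then 0 else 1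

/-- values as a function of letters -/
def toB (g : Fin 2 → SQ) (b : Bool) : ℍ := (g (if b = true then 0 else 1) : ℍ)

theorem toB_lt (g : Fin 2 → SQ) (x : ℤ_[5]) : toB g (lt x) = (g (part x) : ℍ) := by
  unfold toB part; rfl

theorem part_meas : Measurable part :=
  (measurable_of_countable fun b : Bool => (if b = true then (0 : Fin 2) else 1)).comp lt_meas

/-- the open set of parameters -/
def U (r : ℝ) : Set (Fin 2 → SQ) := {g | InK r (g 0 : ℍ) (g 1 : ℍ)}

theorem U_open (r : ℝ) : IsOpen (U r) := by
  have : U r = {g : Fin 2 → SQ | Nm (2 * (g 0 : ℍ).re - xs) (2 * (g 1 : ℍ).re - xs * zs)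
      (2 * ((g 0 : ℍ) * (g 1 : ℍ)).re - zs) < r} := by
    ext g
    constructor
    · intro h; exact h.hK
    · intro h
      exact ⟨by simp, by simp, h⟩
  rw [this]
  apply isOpen_lt _ continuous_const
  unfold Nm
  have c0 : Continuous fun g : Fin 2 → SQ => (g 0 : ℍ) :=
    continuous_subtype_val.comp (continuous_apply 0)
  have c1 : Continuous fun g : Fin 2 → SQ => (g 1 : ℍ) :=
    continuous_subtype_val.comp (continuous_apply 1)
  have d0 : Continuous fun g : Fin 2 → SQ => (g 0 : ℍ).re := Quaternion.continuous_re.comp c0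
  have d1 : Continuous fun g : Fin 2 → SQ => (g 1 : ℍ).re := Quaternion.continuous_re.comp c1
  have d2 : Continuous fun g : Fin 2 → SQ => ((g 0 : ℍ) * (g 1 : ℍ)).re :=
    Quaternion.continuous_re.comp (c0.mul c1)
  fun_prop

theorem U_nonempty {r : ℝ} (hr : 0 < r) : (U r).Nonempty := by
  have ha2 : al xs * al xs = 1 - xs ^ 2 / 4 := Real.mul_self_sqrt al_arg_p.le
  have hg2 : ga xs (xs * zs) zs * ga xs (xs * zs) zs
      = 1 - (xs * zs) ^ 2 / 4 - be xs (xs * zs) zs ^ 2 :=
    Real.mul_self_sqrt (by have := ga_arg_p; linarith)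
  have hb : al xs * be xs (xs * zs) zs = xs * (xs * zs) / 4 - zs / 2 := by
    have := al_p
    unfold be
    field_simp
  generalize al xs = a at *
  generalize be xs (xs * zs) zs = b at *
  generalize ga xs (xs * zs) zs = g at *
  let A : ℍ := ⟨xs / 2, a, 0, 0⟩
  let B : ℍ := ⟨xs * zs / 2, b, g, 0⟩
  have nA : ‖A‖ = 1 := by
    have h : Quaternion.normSq A = 1 := by
      rw [Quaternion.normSq_def']
      show (xs / 2) ^ 2 + a ^ 2 + 0 ^ 2 + 0 ^ 2 = 1
      nlinarith
    rw [Quaternion.normSq_eq_norm_mul_self] at h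
    nlinarith [norm_nonneg A]
  have nB : ‖B‖ = 1 := by
    have h : Quaternion.normSq B = 1 := by
      rw [Quaternion.normSq_def']
      show (xs * zs / 2) ^ 2 + b ^ 2 + g ^ 2 + 0 ^ 2 = 1
      nlinarith
    rw [Quaternion.normSq_eq_norm_mul_self] at h
    nlinarith [norm_nonneg B]
  refine ⟨![⟨A, by simpa using nA⟩, ⟨B, by simpa using nB⟩], nA, nB, ?_⟩
  show Nm (2 * A.re - xs) (2 * B.re - xs * zs) (2 * (A * B).re - zs) < r
  have h1 : 2 * A.re - xs = 0 := by show 2 * (xs / 2) - xs = 0; ring
  have h2 : 2 * B.re - xs * zs = 0 := by show 2 * (xs * zs / 2) - xs * zs = 0; ring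
  have h3 : 2 * (A * B).re - zs = 0 := by
    rw [Quaternion.re_mul]
    show 2 * (xs / 2 * (xs * zs / 2) - a * b - 0 * g - 0 * 0) - zs = 0
    rw [hb]; ring
  rw [h1, h2, h3]
  have : Nm 0 0 0 = 0 := by unfold Nm; simp
  rw [this]; exact hr

theorem dg_two : dg (2 : ℤ_[5]) = 2 ∧ sh (2 : ℤ_[5]) = 0 :=
  dg_sh_unique (by norm_num) (by push_cast; ring)

theorem dg_eleven : dg (11 : ℤ_[5]) = 1 ∧ sh (11 : ℤ_[5]) = 2 :=
  dg_sh_unique (by norm_num) (by push_cast; norm_num)

/-- Q1 is false. -/
theorem result : ¬ Q1 := by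
  intro hQ
  obtain ⟨r, hr, htr⟩ := transfer
  let m : Measure SQ := Measure.haarMeasure ⊤
  have hm : IsProbabilityMeasure m := ⟨by
    have := Measure.haarMeasure_self (K₀ := (⊤ : TopologicalSpace.PositiveCompacts SQ))
    simpa using this⟩
  let μ : Measure ℤ_[5] := Measure.addHaarMeasure ⊤
  have hμ : IsProbabilityMeasure μ := ⟨by
    have := Measure.addHaarMeasure_self (K₀ := (⊤ : TopologicalSpace.PositiveCompacts ℤ_[5]))
    simpa using this⟩
  have : ConnectedSpace SQ := connected_SQ
  let T : ℤ_[5] ≃ᵐ ℤ_[5] := MeasurableEquiv.addLeft 1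
  have hT : Ergodic T μ := by
    have hd : DenseRange (fun n : ℕ => n • (1 : ℤ_[5])) := by
      simpa using PadicInt.denseRange_natCast (p := 5)
    exact ergodic_add_left_of_denseRange_nsmul hd μ
  have hpos : ∀ i, 0 < μ (part ⁻¹' {i}) := by
    intro i
    fin_cases i
    · refine lt_of_lt_of_le (IsOpen.measure_pos μ (U := {x | dg x = 2}) ?_ ?_)
        (measure_mono ?_)
      · exact (isOpen_discrete {2}).preimage dg_continuous
      · exact ⟨2, dg_two.1⟩
      · intro x hx
        have h : lt x = ac 1 x := lt_eq (n := 0) hx (by norm_num)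
        have h2 : dg x = 2 := hx
        show part x = 0
        unfold part
        rw [h]
        simp [ac, lw, h2]
    · refine lt_of_lt_of_le (IsOpen.measure_pos μ (U := {x | dg x = 1 ∧ dg (sh x) = 2}) ?_ ?_)
        (measure_mono ?_)
      · exact ((isOpen_discrete {1}).preimage dg_continuous).inter
          ((isOpen_discrete {2}).preimage (dg_continuous.comp sh_continuous))
      · exact ⟨11, dg_eleven.1, by rw [dg_eleven.2]; exact dg_two.1⟩
      · rintro x ⟨h1, h2⟩
        have h : lt x = ac 2 x := lt_eq (n := 1) h2 (by norm_num)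
        show part x = 1
        unfold part
        rw [h]
        simp [ac, lw, h1, h2]
  have key := hQ 3 (by norm_num) SQ m ℤ_[5] μ T hT 2 part part_meas hpos
  have hsub : (U r) ×ˢ (U r) ⊆ {p : (Fin 2 → SQ) × (Fin 2 → SQ) |
      ¬ ¬ Cohomologous μ T (fun x => p.1 (part x)) (fun x => p.2 (part x))} := by
    rintro ⟨g, g'⟩ ⟨hg, hg'⟩
    show ¬ ¬ _
    rw [not_not]
    obtain ⟨f, hf, hf1, hf2⟩ := htr (toB g) (toB g') hg hg'
    have hmem : ∀ x, f x ∈ sphere (0 : ℍ) 1 := fun x => by simpa using hf1 x
    refine ⟨fun x => ⟨f x, hmem x⟩, hf.subtype_mk (h := hmem), ?_⟩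
    filter_upwards [ae_good μ] with x hx
    have h := hf2 x hx
    rw [toB_lt, toB_lt] at h
    rw [eq_mul_inv_iff_mul_eq]
    exact Subtype.ext h
  have hzero := measure_mono_null hsub key
  have hopen : IsOpen ((U r) ×ˢ (U r)) := (U_open r).prod (U_open r)
  exact (hopen.measure_pos _ ((U_nonempty hr).prod (U_nonempty hr))).ne' hzero

end Pool.Agent.Results.MP_75613c_an.OdometerSU2
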